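import Pool.Agent.E8helper2.ZB.Stm7

/-!
# Linear algebra for filtered cohomology: proofs of `S_LIN` and `S_LIN2`
-/

set_option autoImplicit false

namespace Pool.Agent.E8helper55.ZB

open Pool.Agent.E8helper2.ZB

theorem ginv {F U V : Type} [Field F] [AddCommGroup U] [Module F U] [AddCommGroup V] [Module F V]
    (f : U →ₗ[F] V) : ∃ s : V →ₗ[F] U, ∀ x, f (s (f x)) = f x := by
  obtain ⟨r, hr⟩ := f.rangeRestrict.exists_rightInverse_of_surjective (LinearMap.range_rangeRestrict f)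
  obtain ⟨pr, hpr⟩ := (LinearMap.range f).subtype.exists_leftInverse_of_injective
    (Submodule.ker_subtype _)
  refine ⟨r ∘ₗ pr, fun x => ?_⟩
  have h1 : pr (f x) = f.rangeRestrict x := by
    have := LinearMap.congr_fun hpr (f.rangeRestrict x)
    simpa using this
  rw [LinearMap.comp_apply, h1]
  have h2 := LinearMap.congr_fun hr (f.rangeRestrict x)
  have h3 := congrArg Subtype.val h2
  simpa using h3

theorem mginv {F X Z : Type} [Field F] [Fintype X] [Fintype Z] [DecidableEq X] [DecidableEq Z]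
    (A : Matrix X Z F) : ∃ s : Matrix Z X F, A * s * A = A := by
  obtain ⟨s, hs⟩ := ginv (Matrix.toLin' A)
  refine ⟨LinearMap.toMatrix' s, ?_⟩
  apply Matrix.toLin'.injective
  rw [Matrix.toLin'_mul, Matrix.toLin'_mul, Matrix.toLin'_toMatrix']
  exact LinearMap.ext fun x => hs x

theorem lin : S_LIN := by
  intro F _ X Y _ _ _ _ B W hW
  classical
  let R : Submodule F (X → F) := LinearMap.range (Matrix.vecMulLinear B)
  let Q : Submodule F ((X → F) ⧸ R) := W.map R.mkQ
  obtain ⟨p, hp⟩ := Q.subtype.exists_leftInverse_of_injective (Submodule.ker_subtype _)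
  let bs := Module.finBasis F Q
  have hΦ : ∀ r, ∃ φ ∈ W, R.mkQ φ = (bs r : (X → F) ⧸ R) := fun r => (bs r).2
  choose Φ hΦW hΦQ using hΦ
  let ℓ : (X → F) →ₗ[F] (Fin (Module.finrank F Q) → F) :=
    (bs.equivFun : Q →ₗ[F] (Fin (Module.finrank F Q) → F)) ∘ₗ p ∘ₗ R.mkQ
  have hℓR : ∀ φ ∈ R, ℓ φ = 0 := by
    intro φ hφ
    have : R.mkQ φ = 0 := by
      rw [Submodule.mkQ_apply, Submodule.Quotient.mk_eq_zero]
      exact hφ
    simp only [ℓ, LinearMap.comp_apply, this, map_zero]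
  have hpQ : ∀ q : Q, p (q : (X → F) ⧸ R) = q := fun q => by
    have := LinearMap.congr_fun hp q
    simpa using this
  have hℓΦ : ∀ s, ℓ (Φ s) = Pi.single s 1 := by
    intro s
    simp only [ℓ, LinearMap.comp_apply, hΦQ, hpQ]
    ext j
    simp only [LinearEquiv.coe_coe, Module.Basis.equivFun_apply, Module.Basis.repr_self]
    rw [Finsupp.single_eq_pi_single]
  have hℓ : ∀ (φ : X → F) r, ∑ x, φ x * ℓ (Pi.single x 1) r = ℓ φ r := by
    intro φ r
    have h1 : φ = ∑ x, φ x • (Pi.single x 1 : X → F) := by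
      ext y
      simp [Finset.sum_apply, Pi.single_apply]
    conv_rhs => rw [h1]
    rw [map_sum, Finset.sum_apply]
    refine Finset.sum_congr rfl fun x _ => ?_
    rw [map_smul, Pi.smul_apply, smul_eq_mul]
  refine ⟨Module.finrank F Q, Matrix.of Φ, Matrix.of fun x r => ℓ (Pi.single x 1) r, ?_, ?_, ?_, ?_⟩
  · ext s r
    rw [Matrix.mul_apply]
    simp only [Matrix.of_apply]
    rw [hℓ, hℓΦ, Matrix.one_apply, Pi.single_apply]
    simp only [eq_comm]
  · ext y r
    rw [Matrix.mul_apply]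
    simp only [Matrix.of_apply]
    have h1 := hℓ (B y) r
    rw [hℓR (B y) ⟨Pi.single y 1, by
      rw [Matrix.vecMulLinear_apply]
      exact Matrix.single_one_vecMul y B⟩] at h1
    exact h1
  · exact hΦW
  · intro φ hφ
    have hq : R.mkQ φ ∈ Q := Submodule.mem_map_of_mem hφ
    let a := bs.equivFun ⟨R.mkQ φ, hq⟩
    have ha : (∑ r, a r • bs r) = ⟨R.mkQ φ, hq⟩ := bs.sum_equivFun _
    have h1 : R.mkQ (φ - ∑ r, a r • Φ r) = 0 := by
      rw [map_sub, map_sum]
      simp only [map_smul, hΦQ]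
      have h2 := congrArg Subtype.val ha
      simp only [AddSubmonoidClass.coe_finsetSum, Submodule.coe_smul] at h2
      rw [h2, sub_self]
    rw [Submodule.mkQ_apply, Submodule.Quotient.mk_eq_zero] at h1
    obtain ⟨β, hβ⟩ := h1
    refine ⟨a, β, ?_⟩
    rw [Matrix.vecMulLinear_apply] at hβ
    rw [hβ]
    have h3 : Matrix.vecMul a (Matrix.of Φ) = ∑ r, a r • Φ r := by
      ext x
      simp [Matrix.vecMul, dotProduct, Finset.sum_apply]
    rw [h3]
    abel

theorem lin2 : S_LIN2 := by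
  intro F _ X Y Z _ _ _ _ _ _ A B b Φ U hBA hΦU hBU hφ
  obtain ⟨t, ht⟩ := mginv B
  obtain ⟨s, hs⟩ := mginv A
  set P : Matrix X X F := (1 - U * Φ) * (1 - t * B) with hP
  have hΦP : Φ * P = 0 := by
    have h : Φ * (1 - U * Φ) = 0 := by
      rw [Matrix.mul_sub, Matrix.mul_one, ← Matrix.mul_assoc, hΦU, Matrix.one_mul, sub_self]
    rw [hP, ← Matrix.mul_assoc, h, Matrix.zero_mul]
  have hBP : B * P = 0 := by
    have h : B * (1 - U * Φ) = B := by
      rw [Matrix.mul_sub, Matrix.mul_one, ← Matrix.mul_assoc, hBU, Matrix.zero_mul, sub_zero]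
    rw [hP, ← Matrix.mul_assoc, h, Matrix.mul_sub, Matrix.mul_one, ← Matrix.mul_assoc, ht, sub_self]
  set M : Matrix X X F := 1 - A * s with hMd
  have hM : M * A = 0 := by
    rw [hMd, Matrix.sub_mul, Matrix.one_mul, hs, sub_self]
  have hMP : M * P = 0 := by
    ext x y
    have h1 : Matrix.vecMul (M x) A = 0 := by
      have h2 := congrFun hM x
      rw [Matrix.mul_apply_eq_vecMul] at h2
      exact h2
    obtain ⟨a, β, hab⟩ := hφ _ h1
    rw [Matrix.mul_apply_eq_vecMul, hab, Matrix.add_vecMul, Matrix.vecMul_vecMul,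
      Matrix.vecMul_vecMul, hΦP, hBP, Matrix.vecMul_zero, Matrix.vecMul_zero, add_zero]
    rfl
  refine ⟨s * P, (1 - U * Φ) * t, ?_⟩
  have h1 : A * (s * P) = P := by
    rw [hMd, Matrix.sub_mul, Matrix.one_mul, sub_eq_zero] at hMP
    rw [← Matrix.mul_assoc]
    exact hMP.symm
  rw [h1, hP, Matrix.mul_sub, Matrix.mul_one, Matrix.mul_assoc (1 - U * Φ) t B]
  abel

end Pool.Agent.E8helper55.ZB
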